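import Mathlib
import Pool.Agent.H19.Poi

set_option autoImplicit false
set_option linter.unusedSectionVars false

namespace Pool.Agent.Results.MP_1a410c_mp.Shift

open MvPolynomial Pool.Agent.H19.Poi Topology

variable {n : ℕ} (U : Set (Fin n → ℝ))

/-- f is real analytic on the open set U -/
def IsAn (f : U → ℝ) : Prop :=
  ∃ F : (Fin n → ℝ) → ℝ, AnalyticOnNhd ℝ F U ∧ ∀ x : U, f x = F x

theorem isAn_mul {f g : U → ℝ} (hf : IsAn U f) (hg : IsAn U g) : IsAn U (f * g) := by
  obtain ⟨F, hF, h1⟩ := hf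
  obtain ⟨G, hG, h2⟩ := hg
  exact ⟨fun x => F x * G x, hF.mul hG, fun x => by simp [h1, h2]⟩

theorem isAn_add {f g : U → ℝ} (hf : IsAn U f) (hg : IsAn U g) : IsAn U (f + g) := by
  obtain ⟨F, hF, h1⟩ := hf
  obtain ⟨G, hG, h2⟩ := hg
  exact ⟨fun x => F x + G x, hF.add hG, fun x => by simp [h1, h2]⟩

theorem isAn_const (r : ℝ) : IsAn U (algebraMap ℝ (U → ℝ) r) :=
  ⟨fun _ => r, analyticOnNhd_const, fun _ => rfl⟩

/-- the algebra of real analytic functions on the open set U -/
def An : Subalgebra ℝ (U → ℝ) where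
  carrier := {f | IsAn U f}
  mul_mem' := isAn_mul U
  add_mem' := isAn_add U
  algebraMap_mem' := isAn_const U

open Classical in
/-- extension by zero -/
noncomputable def ext0 (f : U → ℝ) (x : Fin n → ℝ) : ℝ := if h : x ∈ U then f ⟨x, h⟩ else 0

theorem ext0_ev (hU : IsOpen U) (f : U → ℝ) (F : (Fin n → ℝ) → ℝ) (h : ∀ x : U, f x = F x) (x : U) :
    ext0 U f =ᶠ[𝓝 x.1] F := by
  filter_upwards [hU.mem_nhds x.2] with y hy
  have hy' : y ∈ U := hy
  simp [ext0, hy', h]

/-- the derivative of a function on U in the coordinate i -/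
noncomputable def dF (i : Fin n) (f : U → ℝ) (x : U) : ℝ := fderiv ℝ (ext0 U f) x (Pi.single i 1)

theorem isAn_dF (hU : IsOpen U) (i : Fin n) (f : An U) : dF U i f.1 ∈ An U := by
  obtain ⟨F, hF, h⟩ := f.2
  refine ⟨fun x => fderiv ℝ F x (Pi.single i 1), fun x hx => ?_, fun x => ?_⟩
  · exact ((ContinuousLinearMap.apply ℝ ℝ (Pi.single i (1 : ℝ) : Fin n → ℝ)).analyticAt _).comp
      (hF x hx).fderiv
  · show fderiv ℝ (ext0 U f.1) x (Pi.single i 1) = fderiv ℝ F x (Pi.single i 1)
    rw [(ext0_ev U hU f.1 F h x).fderiv_eq]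

/-- the derivative of an analytic function in the coordinate i -/
noncomputable def dA (hU : IsOpen U) (i : Fin n) (f : An U) : An U :=
  ⟨dF U i f.1, isAn_dF U hU i f⟩

theorem dA_val (hU : IsOpen U) (i : Fin n) (f : An U) (F : (Fin n → ℝ) → ℝ) (h : ∀ x : U, f.1 x = F x) (x : U) :
    (dA U hU i f).1 x = fderiv ℝ F x (Pi.single i 1) := by
  show fderiv ℝ (ext0 U f.1) x (Pi.single i 1) = _
  rw [(ext0_ev U hU f.1 F h x).fderiv_eq]

theorem dA_dn (hU : IsOpen U) (i : Fin n) : Dn (dA U hU i) := by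
  constructor
  · intro f g
    obtain ⟨F, hF, h1⟩ := f.2
    obtain ⟨G, hG, h2⟩ := g.2
    apply Subtype.ext; funext x
    have e : (dA U hU i f + dA U hU i g).1 x = (dA U hU i f).1 x + (dA U hU i g).1 x := rfl
    rw [e, dA_val U hU i f F h1, dA_val U hU i g G h2,
      dA_val U hU i (f + g) (F + G) (fun x => by simp [h1, h2]),
      fderiv_add (hF x x.2).differentiableAt (hG x x.2).differentiableAt]
    rfl
  · intro f g
    obtain ⟨F, hF, h1⟩ := f.2
    obtain ⟨G, hG, h2⟩ := g.2
    apply Subtype.ext; funext x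
    have e : (dA U hU i f * g + f * dA U hU i g).1 x =
      (dA U hU i f).1 x * g.1 x + f.1 x * (dA U hU i g).1 x := rfl
    rw [e, dA_val U hU i f F h1, dA_val U hU i g G h2,
      dA_val U hU i (f * g) (F * G) (fun x => by simp [h1, h2]),
      fderiv_mul (hF x x.2).differentiableAt (hG x x.2).differentiableAt, h1, h2]
    simp
    ring

theorem dA_comm (hU : IsOpen U) (i j : Fin n) (f : An U) : dA U hU i (dA U hU j f) = dA U hU j (dA U hU i f) := by
  obtain ⟨F, hF, h1⟩ := f.2
  apply Subtype.ext; funext x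
  rw [dA_val U hU i _ (fun x => fderiv ℝ F x (Pi.single j 1)) (dA_val U hU j f F h1),
    dA_val U hU j _ (fun x => fderiv ℝ F x (Pi.single i 1)) (dA_val U hU i f F h1)]
  have hd : DifferentiableAt ℝ (fderiv ℝ F) x := (hF x x.2).fderiv.differentiableAt
  have hs : IsSymmSndFDerivAt ℝ F x := (hF x x.2).contDiffAt.isSymmSndFDerivAt (n := ⊤) (by simp)
  rw [fderiv_clm_apply hd (differentiableAt_const _), fderiv_clm_apply hd (differentiableAt_const _)]
  simpa using hs.eq (Pi.single i 1) (Pi.single j 1)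

theorem dA_const (hU : IsOpen U) (i : Fin n) (r : ℝ) : dA U hU i (algebraMap ℝ (An U) r) = 0 := by
  apply Subtype.ext; funext x
  rw [dA_val U hU i _ (fun _ => r) (fun _ => rfl)]
  simp

/-- coordinate function -/
def co (j : Fin n) : An U :=
  ⟨fun x => x.1 j, fun x => x j, fun x _ => (ContinuousLinearMap.proj (R := ℝ)
    (φ := fun _ : Fin n => ℝ) j).analyticAt x, fun _ => rfl⟩

theorem dA_co (hU : IsOpen U) (i j : Fin n) : dA U hU i (co U j) = if i = j then 1 else 0 := by
  apply Subtype.ext; funext x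
  rw [dA_val U hU i _ (fun x => x j) (fun _ => rfl)]
  have : fderiv ℝ (fun x : Fin n → ℝ => x j) x.1 = ContinuousLinearMap.proj (R := ℝ)
    (φ := fun _ : Fin n => ℝ) j := (ContinuousLinearMap.proj (R := ℝ)
    (φ := fun _ : Fin n => ℝ) j).fderiv
  rw [this]
  by_cases hij : i = j
  · subst hij; simp
  · simp [hij, Ne.symm hij]

section

/-- differential polynomials; the variable (i, k) is the derivative of order k + 1 of u^i -/
abbrev DP (n : ℕ) (R : Type) [CommRing R] := MvPolynomial (Fin n × ℕ) R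

variable {R : Type} [CommRing R] (d : Fin n → R → R)

/-- derivative of a differential polynomial in the jet variable of order k of u^i -/
noncomputable def pd (i : Fin n) : ℕ → DP n R → DP n R
  | 0 => fun f => ∑ m ∈ f.support, monomial m (d i (coeff m f))
  | k + 1 => fun f => pderiv (i, k) f

/-- the total derivative -/
noncomputable def tD (f : DP n R) : DP n R := ∑ i, ∑ᶠ k, X (i, k) * pd d i k f

/-- the variational derivative -/
noncomputable def vd (i : Fin n) (f : DP n R) : DP n R := ∑ᶠ k, (fun g => - tD d g)^[k] (pd d i k f)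

/-- the bracket given by the operator D (g D + c u_x) D -/
noncomputable def br (g : Matrix (Fin n) (Fin n) R) (c : Fin n → Fin n → Fin n → R)
    (H F : DP n R) : DP n R :=
  ∑ i, ∑ j, vd d i H * tD d (C (g i j) * tD d (tD d (vd d j F))
    + (∑ r, C (c i j r) * X (r, 0)) * tD d (vd d j F))

/-- skew symmetry and the Jacobi identity modulo total derivatives -/
def IsPoisson (B : DP n R → DP n R → DP n R) : Prop :=
  (∀ H F, ∃ E, B H F + B F H = tD d E) ∧
    ∀ H F G, ∃ E, B (B H F) G + B (B F G) H + B (B G H) F = tD d E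


/-- the linear combination a B₁ + b B₂ of two brackets -/
noncomputable def comb (a b : R) (B₁ B₂ : DP n R → DP n R → DP n R) (H F : DP n R) : DP n R :=
  C a * B₁ H F + C b * B₂ H F

/-- the bracket is zero on functionals -/
def IsNull (B : DP n R → DP n R → DP n R) : Prop := ∀ H F, ∃ E, B H F = tD d E

noncomputable def vf (φ : Fin n → ℕ → DP n R) (f : DP n R) : DP n R :=
  ∑ i, ∑ᶠ k, φ i k * pd d i k f

noncomputable def ev (Y : Fin n → DP n R) : DP n R → DP n R := vf d fun i k => (tD d)^[k] (Y i)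

theorem tD_eq : tD d = vf d (fun i k => X (i, k)) := rfl

theorem vf_zero (f : DP n R) : vf d (fun _ _ => 0) f = 0 := by simp [vf]

theorem bnd (f : DP n R) : ∃ N, ∀ i k, N ≤ k → pd d i k f = 0 := by
  classical
  refine ⟨f.vars.sup (fun p => p.2) + 2, fun i k hk => ?_⟩
  obtain ⟨l, rfl⟩ : ∃ l, k = l + 1 := ⟨k - 1, by omega⟩
  apply pderiv_eq_zero_of_notMem_vars
  intro h
  have : l ≤ f.vars.sup (fun p => p.2) := Finset.le_sup (f := fun p : Fin n × ℕ => p.2) h
  omega

theorem vf_eq (φ : Fin n → ℕ → DP n R) (f : DP n R) (N : ℕ) (h : ∀ i k, N ≤ k → pd d i k f = 0) :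
    vf d φ f = ∑ i, ∑ k ∈ Finset.range N, φ i k * pd d i k f := by
  refine Finset.sum_congr rfl fun i _ => finsum_eq_sum_of_support_subset _ fun k hk => ?_
  by_contra hc
  simp only [Finset.coe_range, Set.mem_Iio, not_lt] at hc
  exact hk (by simp [h i k hc])

structure Good : Prop where
  dn : ∀ i, Dn (d i)
  comm : ∀ i j f, d i (d j f) = d j (d i f)

variable {d} (hd : Good d)
include hd

theorem coeff_pd0 (i : Fin n) (f : DP n R) (m : Fin n × ℕ →₀ ℕ) :
    coeff m (pd d i 0 f) = d i (coeff m f) := by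
  classical
  simp only [pd, coeff_sum, coeff_monomial]
  rw [Finset.sum_ite_eq']
  split_ifs with hm
  · rfl
  · rw [notMem_support_iff.1 hm, (hd.dn i).zero]

theorem pd_dn (i : Fin n) (k : ℕ) : Dn (pd d i k) := by
  classical
  cases k with
  | zero =>
    constructor
    · intro f g
      ext1 m
      simp only [coeff_pd0 hd, coeff_add, (hd.dn i).add]
    · intro f g
      ext1 m
      simp only [coeff_pd0 hd, coeff_add, coeff_mul, (hd.dn i).sum, (hd.dn i).mul,
        Finset.sum_add_distrib]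
  | succ k =>
    constructor
    · intro f g; simp [pd]
    · intro f g; simp only [pd, pderiv_mul]

theorem pd_C (i : Fin n) (k : ℕ) (c : R) :
    pd d i k (C c) = if k = 0 then C (d i c) else 0 := by
  classical
  cases k with
  | zero =>
    ext1 m
    simp only [coeff_pd0 hd, if_true, coeff_C]
    split_ifs
    · rfl
    · exact (hd.dn i).zero
  | succ k => simp [pd]

theorem pd_X (i j : Fin n) (k l : ℕ) :
    pd d i k (X (j, l)) = if i = j ∧ k = l + 1 then 1 else 0 := by
  classical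
  cases k with
  | zero =>
    ext1 m
    simp only [coeff_pd0 hd, coeff_X]
    split_ifs
    · simp_all
    · simpa using (hd.dn i).one
    · simp_all
    · simpa using (hd.dn i).zero
  | succ k =>
    simp only [pd, pderiv_X, Pi.single_apply, Prod.mk.injEq, Nat.add_right_cancel_iff]
    simp only [eq_comm]

theorem vf_dn (φ : Fin n → ℕ → DP n R) : Dn (vf d φ) := by
  constructor
  · intro f g
    obtain ⟨N, hN⟩ := bnd d f
    obtain ⟨M, hM⟩ := bnd d g
    have h1 : ∀ i k, N + M ≤ k → pd d i k f = 0 := fun i k h => hN i k (by omega)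
    have h2 : ∀ i k, N + M ≤ k → pd d i k g = 0 := fun i k h => hM i k (by omega)
    rw [vf_eq d φ f _ h1, vf_eq d φ g _ h2, vf_eq d φ (f + g) (N + M)
      (fun i k h => by rw [(pd_dn hd i k).add, h1 i k h, h2 i k h, add_zero])]
    simp only [(pd_dn hd _ _).add, mul_add, Finset.sum_add_distrib]
  · intro f g
    obtain ⟨N, hN⟩ := bnd d f
    obtain ⟨M, hM⟩ := bnd d g
    have h1 : ∀ i k, N + M ≤ k → pd d i k f = 0 := fun i k h => hN i k (by omega)
    have h2 : ∀ i k, N + M ≤ k → pd d i k g = 0 := fun i k h => hM i k (by omega)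
    rw [vf_eq d φ f _ h1, vf_eq d φ g _ h2, vf_eq d φ (f * g) (N + M)
      (fun i k h => by rw [(pd_dn hd i k).mul, h1 i k h, h2 i k h]; simp)]
    simp only [(pd_dn hd _ _).mul, Finset.sum_mul, Finset.mul_sum, ← Finset.sum_add_distrib]
    refine Finset.sum_congr rfl fun i _ => Finset.sum_congr rfl fun k _ => by ring

theorem vf_C (φ : Fin n → ℕ → DP n R) (c : R) :
    vf d φ (C c) = ∑ i, φ i 0 * C (d i c) := by
  rw [vf_eq d φ _ 1 (fun i k h => by rw [pd_C hd, if_neg (by omega)])]
  simp [pd_C hd]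

theorem vf_X (φ : Fin n → ℕ → DP n R) (j : Fin n) (l : ℕ) :
    vf d φ (X (j, l)) = φ j (l + 1) := by
  rw [vf_eq d φ _ (l + 2) (fun i k h => by rw [pd_X hd, if_neg (by omega)])]
  rw [Finset.sum_eq_single j]
  · rw [Finset.sum_eq_single (l + 1)]
    · simp [pd_X hd]
    · intro k _ hk; simp [pd_X hd, hk]
    · simp
  · intro i _ hi; simp [pd_X hd, hi]
  · simp

theorem vf_comm (φ ψ : Fin n → ℕ → DP n R) (f : DP n R) :
    vf d φ (vf d ψ f) - vf d ψ (vf d φ f)
      = vf d (fun i k => vf d φ (ψ i k) - vf d ψ (φ i k)) f := by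
  induction f using MvPolynomial.induction_on with
  | C c =>
    simp only [vf_C hd, (vf_dn hd _).sum, (vf_dn hd _).mul, Finset.sum_add_distrib, sub_mul,
      Finset.sum_sub_distrib, Finset.mul_sum]
    have : ∑ i, ∑ j, ψ i 0 * (φ j 0 * C (d j (d i c)))
        = ∑ i, ∑ j, φ i 0 * (ψ j 0 * C (d j (d i c))) := by
      rw [Finset.sum_comm]
      refine Finset.sum_congr rfl fun i _ => Finset.sum_congr rfl fun j _ => ?_
      rw [hd.comm i j]; ring
    rw [this]; ring
  | add p q hp hq =>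
    simp only [(vf_dn hd _).add]
    rw [← hp, ← hq]; ring
  | mul_X p v hp =>
    obtain ⟨j, l⟩ := v
    simp only [(vf_dn hd _).add, (vf_dn hd _).mul, vf_X hd]
    rw [← hp]; ring

theorem tD_dn : Dn (tD d) := vf_dn hd _

theorem ev_D (Y : Fin n → DP n R) (f : DP n R) : ev d Y (tD d f) = tD d (ev d Y f) := by
  have := vf_comm hd (fun i k => (tD d)^[k] (Y i)) (fun i k => X (i, k)) f
  simp only [vf_X hd, Function.iterate_succ_apply', ← tD_eq, sub_self, vf_zero] at this
  exact sub_eq_zero.1 this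

theorem ev_Dk (Y : Fin n → DP n R) (k : ℕ) (f : DP n R) :
    ev d Y ((tD d)^[k] f) = (tD d)^[k] (ev d Y f) := by
  induction k with
  | zero => rfl
  | succ k ih => rw [Function.iterate_succ_apply', Function.iterate_succ_apply', ev_D hd, ih]

theorem Dk_sub (k : ℕ) (f g : DP n R) : (tD d)^[k] (f - g) = (tD d)^[k] f - (tD d)^[k] g := by
  induction k with
  | zero => rfl
  | succ k ih => simp only [Function.iterate_succ_apply', ih, (tD_dn hd).sub]

theorem ev_comm (Y Z : Fin n → DP n R) (f : DP n R) :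
    ev d Y (ev d Z f) - ev d Z (ev d Y f) = ev d (fun i => ev d Y (Z i) - ev d Z (Y i)) f := by
  have := vf_comm hd (fun i k => (tD d)^[k] (Y i)) (fun i k => (tD d)^[k] (Z i)) f
  have e : (fun i k => vf d (fun i k => (tD d)^[k] (Y i)) ((tD d)^[k] (Z i))
      - vf d (fun i k => (tD d)^[k] (Z i)) ((tD d)^[k] (Y i)))
      = fun i k => (tD d)^[k] (ev d Y (Z i) - ev d Z (Y i)) := by
    funext i k
    rw [Dk_sub hd, ← ev_Dk hd, ← ev_Dk hd]; rfl
  rw [e] at this
  exact this

theorem nDk_zero (k : ℕ) : (fun g => - tD d g)^[k] 0 = 0 := by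
  induction k with
  | zero => rfl
  | succ k ih => simp only [Function.iterate_succ_apply', ih, (tD_dn hd).zero, neg_zero]

theorem vd_eq (i : Fin n) (f : DP n R) (N : ℕ) (h : ∀ i k, N ≤ k → pd d i k f = 0) :
    vd d i f = ∑ k ∈ Finset.range N, (fun g => - tD d g)^[k] (pd d i k f) := by
  refine finsum_eq_sum_of_support_subset _ fun k hk => ?_
  by_contra hc
  simp only [Finset.coe_range, Set.mem_Iio, not_lt] at hc
  exact hk (by simp only [h i k hc, nDk_zero hd])

theorem ev_vd (Y : Fin n → DP n R) (f : DP n R) :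
    Ex (tD d) (ev d Y f - ∑ i, vd d i f * Y i) := by
  obtain ⟨N, hN⟩ := bnd d f
  have e : ev d Y f - ∑ i, vd d i f * Y i = ∑ i, ∑ k ∈ Finset.range N,
      ((tD d)^[k] (Y i) * pd d i k f - (fun g => - tD d g)^[k] (pd d i k f) * Y i) := by
    simp only [ev, vf_eq d _ f N hN, vd_eq hd _ f N hN, Finset.sum_sub_distrib, Finset.sum_mul]
  rw [e]
  exact Ex.sum (tD_dn hd) _ _ fun i _ => Ex.sum (tD_dn hd) _ _ fun k _ => parts (tD_dn hd) k _ _

theorem ev_ex (Y : Fin n → DP n R) {f : DP n R} (h : Ex (tD d) f) : Ex (tD d) (ev d Y f) := by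
  obtain ⟨E, rfl⟩ := h
  exact ⟨ev d Y E, ev_D hd Y E⟩

theorem ev_dn (Y : Fin n → DP n R) : Dn (ev d Y) := vf_dn hd _

theorem symm_vd (Y Z : Fin n → DP n R) (f : DP n R) :
    Ex (tD d) (∑ i, ev d Y (vd d i f) * Z i - ∑ i, ev d Z (vd d i f) * Y i) := by
  have h1 := ev_ex hd Y (ev_vd hd Z f)
  have h2 := ev_ex hd Z (ev_vd hd Y f)
  have h3 := ev_vd hd (fun i => ev d Y (Z i) - ev d Z (Y i)) f
  rw [← ev_comm hd] at h3
  simp only [(ev_dn hd _).sub, (ev_dn hd _).sum, (ev_dn hd _).mul, Finset.sum_add_distrib,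
    mul_sub, Finset.sum_sub_distrib] at h1 h2 h3
  refine Ex.of_eq (Ex.add (tD_dn hd) (Ex.sub (tD_dn hd) h2 h1) h3) ?_
  ring

theorem vf_const (φ : Fin n → ℕ → DP n R) {c : R} (hc : ∀ i, d i c = 0) : vf d φ (C c) = 0 := by
  simp [vf_C hd, hc]

theorem vf_co (φ : Fin n → ℕ → DP n R) {c : R} (j : Fin n)
    (hc : ∀ i, d i c = if i = j then 1 else 0) : vf d φ (C c) = φ j 0 := by
  rw [vf_C hd, Finset.sum_eq_single j]
  · simp [hc]
  · intro i _ hi; simp [hc, hi]
  · simp

theorem vf_single (i : Fin n) (k : ℕ) (f : DP n R) :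
    vf d (fun j l => if j = i ∧ l = k then 1 else 0) f = pd d i k f := by
  unfold vf
  rw [Finset.sum_eq_single i]
  · rw [finsum_eq_single _ k]
    · simp
    · intro l hl; simp [hl]
  · intro j _ hj; simp [hj]
  · simp

theorem D_ite (p : Prop) [Decidable p] : tD d (if p then 1 else 0) = 0 := by
  split_ifs
  · exact (tD_dn hd).one
  · exact (tD_dn hd).zero

theorem pd_D0 (i : Fin n) (f : DP n R) : pd d i 0 (tD d f) = tD d (pd d i 0 f) := by
  have := vf_comm hd (fun j l => if j = i ∧ l = 0 then 1 else 0) (fun i k => X (i, k)) f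
  simp only [vf_X hd, ← tD_eq, D_ite hd, vf_single hd, sub_zero, Nat.succ_ne_zero, and_false,
    if_false, vf_zero] at this
  exact sub_eq_zero.1 this

theorem pd_D1 (i : Fin n) (k : ℕ) (f : DP n R) :
    pd d i (k + 1) (tD d f) = tD d (pd d i (k + 1) f) + pd d i k f := by
  have := vf_comm hd (fun j l => if j = i ∧ l = k + 1 then 1 else 0) (fun i k => X (i, k)) f
  simp only [vf_X hd, ← tD_eq, D_ite hd, sub_zero, Nat.add_right_cancel_iff] at this
  rw [vf_single hd, vf_single hd, vf_single hd] at this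
  linear_combination this

theorem nDk_add (k : ℕ) (f g : DP n R) : (fun g => - tD d g)^[k] (f + g)
    = (fun g => - tD d g)^[k] f + (fun g => - tD d g)^[k] g := by
  induction k with
  | zero => rfl
  | succ k ih => simp only [Function.iterate_succ_apply', ih, (tD_dn hd).add, neg_add]

theorem vd_eq' (i : Fin n) (f : DP n R) (N : ℕ) (h : ∀ k, N ≤ k → pd d i k f = 0) :
    vd d i f = ∑ k ∈ Finset.range N, (fun g => - tD d g)^[k] (pd d i k f) := by
  refine finsum_eq_sum_of_support_subset _ fun k hk => ?_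
  by_contra hc
  simp only [Finset.coe_range, Set.mem_Iio, not_lt] at hc
  exact hk (by simp only [h k hc, nDk_zero hd])

theorem vd_D (i : Fin n) (f : DP n R) : vd d i (tD d f) = 0 := by
  obtain ⟨N, hN⟩ := bnd d f
  rw [vd_eq' hd i _ (N + 1) (fun k hk => by
    obtain ⟨l, rfl⟩ : ∃ l, k = l + 1 := ⟨k - 1, by omega⟩
    rw [pd_D1 hd, hN i _ (by omega), hN i _ (by omega), (tD_dn hd).zero, add_zero])]
  have key : ∀ M, ∑ k ∈ Finset.range (M + 1), (fun g => - tD d g)^[k] (pd d i k (tD d f))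
      = (fun g => - tD d g)^[M] (tD d (pd d i M f)) := by
    intro M
    induction M with
    | zero => simp [pd_D0 hd]
    | succ M ih =>
      rw [Finset.sum_range_succ, ih, pd_D1 hd, nDk_add hd, add_comm, add_assoc,
        Function.iterate_succ_apply _ M (pd d i M f), ← nDk_add hd, neg_add_cancel, nDk_zero hd,
        add_zero]
  rw [key, hN i N le_rfl, (tD_dn hd).zero, nDk_zero hd]

theorem vd_C (i : Fin n) (c : R) : vd d i (C c) = C (d i c) := by
  rw [vd_eq' hd i _ 1 (fun k hk => by rw [pd_C hd, if_neg (by omega)])]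
  simp [pd_C hd]

end

section
variable {R : Type} [CommRing R] {d : Fin 3 → R → R} (hd : Good d) {m s x y : R}
  (hm : ∀ i, d i m = 0) (hs : ∀ i, d i s = 0)
  (hx : ∀ i, d i x = if i = 0 then 1 else 0) (hy : ∀ i, d i y = if i = 1 then 1 else 0)
include hd hm hs hx hy

theorem poisson_K {B : DP 3 R → DP 3 R → DP 3 R}
    (hB : ∀ H F, B H F = ip (fun i => vd d i H)
      (K (tD d) (C m) (C s) (C x) (C y) fun i => vd d i F)) : IsPoisson d B := by
  have Dm : tD d (C m) = 0 := vf_const hd _ hm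
  have Ds : tD d (C s) = 0 := vf_const hd _ hs
  constructor
  · intro H F
    rw [hB, hB]
    exact skew (tD_dn hd) Dm Ds _ _
  · intro H F G
    set a : Fin 3 → DP 3 R := fun i => vd d i H with ha
    set b : Fin 3 → DP 3 R := fun i => vd d i F with hb
    set c : Fin 3 → DP 3 R := fun i => vd d i G with hc
    set Ka := K (tD d) (C m) (C s) (C x) (C y) a with hKa
    set Kb := K (tD d) (C m) (C s) (C x) (C y) b with hKb
    set Kc := K (tD d) (C m) (C s) (C x) (C y) c with hKc
    have j := jac (tD_dn hd) Dm Ds (x := C x) (y := C y) (ev_dn hd Ka) (ev_dn hd Kb) (ev_dn hd Kc)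
      (ev_D hd Ka) (ev_D hd Kb) (ev_D hd Kc)
      (vf_const hd _ hm) (vf_const hd _ hm) (vf_const hd _ hm)
      (vf_const hd _ hs) (vf_const hd _ hs) (vf_const hd _ hs) a b c
      (vf_co hd _ 0 hx) (vf_co hd _ 1 hy) (vf_co hd _ 0 hx) (vf_co hd _ 1 hy)
      (vf_co hd _ 0 hx) (vf_co hd _ 1 hy)
      (by have := symm_vd hd Kc Kb H; simp only [Fin.sum_univ_three] at this; exact this)
      (by have := symm_vd hd Ka Kc F; simp only [Fin.sum_univ_three] at this; exact this)
      (by have := symm_vd hd Kb Ka G; simp only [Fin.sum_univ_three] at this; exact this)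
    have e1 := ev_vd hd Kc (B H F)
    have e2 := ev_vd hd Ka (B F G)
    have e3 := ev_vd hd Kb (B G H)
    rw [← hKa, ← hKb, ← hKc, ← hB H F, ← hB F G, ← hB G H] at j
    refine Ex.of_eq (Ex.sub (tD_dn hd) j (Ex.add (tD_dn hd) e1 (Ex.add (tD_dn hd) e2 e3))) ?_
    rw [hB (B H F), hB (B F G), hB (B G H)]
    simp only [Fin.sum_univ_three, ip, ← ha, ← hb, ← hc, ← hKa, ← hKb, ← hKc]
    ring

/-- metric -/
def gm (s x y : R) : Matrix (Fin 3) (Fin 3) R := !![0, 0, 1; 0, 1, -x; 1, -x, 2 * y + x * x + 2 * s]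

def cm (x : R) : Fin 3 → Fin 3 → Fin 3 → R :=
  ![![![0, 0, 0], ![0, 0, 0], ![0, 0, 0]], ![![0, 0, 0], ![0, 0, 0], ![-1, 0, 0]],
    ![![0, 0, 0], ![0, 0, 0], ![x, 1, 0]]]

omit hm in
theorem br_eq (H F : DP 3 R) : br d (gm s x y) (cm x) H F = ip (fun i => vd d i H)
    (K (tD d) (C 1) (C s) (C x) (C y) fun i => vd d i F) := by
  have Dx : tD d (C x) = X (0, 0) := vf_co hd _ 0 hx
  have Dy : tD d (C y) = X (1, 0) := vf_co hd _ 1 hy
  have Ds : tD d (C s) = 0 := vf_const hd _ hs
  have h := tD_dn hd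
  simp only [br, gm, cm, ip, K, Fin.sum_univ_three, Matrix.of_apply, Matrix.cons_val', Matrix.cons_val_zero,
    Matrix.cons_val_one, Matrix.cons_val_two, Matrix.head_cons, Matrix.tail_cons,
    Matrix.empty_val', Matrix.cons_val_fin_one, Matrix.head_fin_const,
    map_zero, map_one, map_neg, map_add, map_mul, map_ofNat, h.add, h.sub, h.mul, h.neg, h.two,
    h.one, h.zero, Dx, Dy, Ds, zero_mul, mul_zero, add_zero, zero_add, one_mul]
  ring

omit hm hs hx hy in
theorem lin {α β : R} (hα : ∀ i, d i α = 0) (hβ : ∀ i, d i β = 0) (p q : Fin 3 → DP 3 R) :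
    C α * ip p (K (tD d) (C 1) (C 0) (C x) (C y) q) + C β * ip p (K (tD d) (C 1) (C 1) (C x) (C y) q)
      = ip p (K (tD d) (C (α + β)) (C β) (C x) (C y) q) := by
  have Da : tD d (C α) = 0 := vf_const hd _ hα
  have Db : tD d (C β) = 0 := vf_const hd _ hβ
  have h := tD_dn hd
  simp only [ip, K, Matrix.cons_val_zero,
    Matrix.cons_val_one, Matrix.cons_val_two, Matrix.head_cons, Matrix.tail_cons,
    map_zero, map_one, map_add, h.add, h.sub, h.mul, h.two,
    Da, Db, zero_mul, mul_zero, add_zero, zero_add, one_mul, mul_one]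
  ring

omit hs hy in
theorem nonex (h : Ex (tD d) (C m * C x * X (2, 2))) : m = 0 := by
  obtain ⟨E, hE⟩ := h
  have h0 := vd_D hd 0 E
  rw [← hE, vd_eq' hd 0 _ 1 (fun k hk => by
    simp only [(pd_dn hd 0 k).mul, pd_C hd, pd_X hd, if_neg (show k ≠ 0 by omega)]
    simp)] at h0
  simp only [Finset.range_one, Finset.sum_singleton, Function.iterate_zero, id,
    (pd_dn hd 0 0).mul, pd_C hd, pd_X hd, hm, hx] at h0
  simp only [if_true, map_zero, zero_mul, map_one, mul_one, zero_add, Nat.zero_ne_add_one,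
    and_false, if_false, mul_zero, add_zero] at h0
  have := congrArg (coeff (Finsupp.single ((2 : Fin 3), 2) 1)) h0
  simpa [coeff_C_mul, coeff_X] using this

theorem indep {z : R} (hz : ∀ i, d i z = if i = 2 then 1 else 0)
    (h : ∀ H F : DP 3 R, Ex (tD d) (ip (fun i => vd d i H)
      (K (tD d) (C m) (C s) (C x) (C y) fun i => vd d i F))) : 4 * m = 0 ∧ (m = 0 → 4 * s = 0) := by
  have Dz : tD d (C z) = X (2, 0) := vf_co hd _ 2 hz
  have DX : ∀ k, tD d (X (2, k)) = X (2, k + 1) := fun k => vf_X hd _ 2 k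
  have Dm : tD d (C m) = 0 := vf_const hd _ hm
  have Ds : tD d (C s) = 0 := vf_const hd _ hs
  have hD := tD_dn hd
  have c4 : ∀ (r : R), (∀ i, d i r = 0) → ∀ i, d i (4 * r) = 0 := fun r hr i => by
    rw [show (4 : R) * r = r + r + r + r by ring]
    simp only [(hd.dn i).add, hr, add_zero]
  constructor
  · refine nonex hd (c4 m hm) hx (Ex.of_eq (h (C (x * x)) (C (z * z))) ?_)
    simp only [ip, K, vd_C hd, (hd.dn _).mul, hx, hz, Matrix.cons_val_zero,
      Matrix.cons_val_one, Matrix.cons_val_two, Matrix.head_cons, Matrix.tail_cons]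
    simp [hD.add, hD.mul, Dz, DX, Dm, map_ofNat]
    ring
  · intro h0
    refine nonex hd (c4 s hs) hx (Ex.of_eq (h (C (x * z)) (C (z * z))) ?_)
    simp only [ip, K, vd_C hd, (hd.dn _).mul, hx, hz, h0, Matrix.cons_val_zero,
      Matrix.cons_val_one, Matrix.cons_val_two, Matrix.head_cons, Matrix.tail_cons]
    simp [hD.add, hD.mul, Dz, DX, Ds, map_ofNat, hD.two, hD.zero]
    ring

end

theorem good (hU : IsOpen U) : Good (dA U hU) := ⟨dA_dn U hU, dA_comm U hU⟩

/-- the data g, c of an operator D (g D + c u_x) D with coefficients in R -/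
structure Op (n : ℕ) (R : Type) where
  g : Matrix (Fin n) (Fin n) R
  c : Fin n → Fin n → Fin n → R

section
variable {R : Type} [CommRing R] [Algebra ℝ R] (d : Fin n → R → R)

/-- nondegenerate symmetric metric, and the bracket is Poisson -/
def Geometric (P : Op n R) : Prop := P.g.IsSymm ∧ IsUnit P.g.det ∧ IsPoisson d (br d P.g P.c)

/-- P + l Q is Poisson for every constant l -/
def Compatible (P Q : Op n R) : Prop := ∀ l : ℝ,
  IsPoisson d (comb (algebraMap ℝ R 1) (algebraMap ℝ R l) (br d P.g P.c) (br d Q.g Q.c))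

/-- the two brackets are linearly independent over the constants -/
def Different (P Q : Op n R) : Prop := ∀ a b : ℝ,
  IsNull d (comb (algebraMap ℝ R a) (algebraMap ℝ R b) (br d P.g P.c) (br d Q.g Q.c)) →
    a = 0 ∧ b = 0

end

/-- c vanishes at no point of U -/
def NowhereDarboux (P : Op n (An U)) : Prop := ∀ p : U, ∃ i j r, (P.c i j r).1 p ≠ 0

theorem result (U : Set (Fin 3 → ℝ)) (hU : IsOpen U) (hne : U.Nonempty) :
    ∃ P Q : Op 3 (An U), Geometric (dA U hU) P ∧ Geometric (dA U hU) Q ∧ Compatible (dA U hU) P Q ∧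
      Different (dA U hU) P Q ∧ NowhereDarboux U P ∧ NowhereDarboux U Q := by
  have hd := good U hU
  have h0 : ∀ i, dA U hU i 0 = 0 := fun i => (dA_dn U hU i).zero
  have h1 : ∀ i, dA U hU i 1 = 0 := fun i => (dA_dn U hU i).one
  have hx := fun i => dA_co U hU i 0
  have hy := fun i => dA_co U hU i 1
  have hz := fun i => dA_co U hU i 2
  have b1 := br_eq hd h0 hx hy
  have b2 := br_eq hd h1 hx hy
  have hsum : ∀ a b : ℝ, ∀ i, dA U hU i (algebraMap ℝ (An U) a + algebraMap ℝ (An U) b) = 0 :=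
    fun a b i => by rw [(dA_dn U hU i).add, dA_const, dA_const, add_zero]
  have sy : ∀ {R : Type} [CommRing R] (s x y : R), (gm s x y).IsSymm := by
    intro R _ s x y
    ext i j
    fin_cases i <;> fin_cases j <;> rfl
  have de : ∀ {R : Type} [CommRing R] (s x y : R), IsUnit (gm s x y).det := by
    intro R _ s x y
    have : (gm s x y).det = -1 := by simp [gm, Matrix.det_fin_three]
    rw [this]; exact isUnit_one.neg
  refine ⟨⟨gm 0 (co U 0) (co U 1), cm (co U 0)⟩, ⟨gm 1 (co U 0) (co U 1), cm (co U 0)⟩,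
    ⟨sy _ _ _, de _ _ _, poisson_K hd h1 h0 hx hy b1⟩,
    ⟨sy _ _ _, de _ _ _, poisson_K hd h1 h1 hx hy b2⟩, fun l => ?_, fun a b h => ?_,
    fun p => ⟨2, 2, 1, one_ne_zero⟩, fun p => ⟨2, 2, 1, one_ne_zero⟩⟩
  · refine poisson_K hd (hsum 1 l) (fun i => dA_const U hU i l) hx hy fun H F => ?_
    rw [← lin hd (fun i => dA_const U hU i 1) (fun i => dA_const U hU i l), ← b1, ← b2]
    rfl
  · have := indep hd (hsum a b) (fun i => dA_const U hU i b) hx hy hz fun H F => by
      rw [← lin hd (fun i => dA_const U hU i a) (fun i => dA_const U hU i b), ← b1, ← b2]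
      exact h H F
    obtain ⟨p, hp⟩ := hne
    have e1 : 4 * (a + b) = 0 := congrArg (fun f : An U => f.1 ⟨p, hp⟩) this.1
    have e2 : a + b = 0 := by linarith
    have e3 : 4 * b = 0 := congrArg (fun f : An U => f.1 ⟨p, hp⟩)
      (this.2 (by rw [← map_add, e2, map_zero]))
    constructor <;> linarith

end Pool.Agent.Results.MP_1a410c_mp.Shift
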